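import Pool.Agent.R460.GP.Conv
import Pool.Agent.N733.AQ.A

set_option autoImplicit false

/-! Differences in the classes `a mod q`, `q ≤ X ^ (7 / 10 - ρ)`, `gcd (a, q)` at most a power of the logarithm: the number
of the exceptions to the lower bound in all windows up to `h (log h) ^ W`, from `R460/GP`. -/

namespace Pool.Agent.U365.PD

open Finset Classical Filter Topology
open Pool.Agent.H560R3.GB (sing)
open Pool.Agent.R460.GP (cntP pairs AllWindows exceptional pairs_eq pairs_few)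

/-- the lower bound for the number of prime pairs with the difference `h` in all windows up to `h (log h) ^ W` -/
def LowD (W h : ℕ) : Prop :=
  ∀ y₁ y₂ : ℕ, y₁ < y₂ → (y₂ : ℝ) ≤ h * Real.log h ^ W → (h : ℝ) / Real.log h ^ W ≤ (y₂ : ℝ) - y₁ →
    1 / 21 * (sing h * ((y₂ : ℝ) - y₁) / Real.log h ^ 2) ≤ (cntP h y₁ y₂ : ℝ)

/-- from the windows up to `x = X L ^ W` to the windows up to `h (log h) ^ W` -/
lemma low_of {A W : ℕ} {X L : ℝ} (hX : 1 ≤ X) (hL : L = Real.log X) (hL4 : 4 ≤ L)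
    (hp : L ^ (A + 2 + W) ≤ X ^ (1 / 100 : ℝ)) {h : ℕ} (hh : X / L ^ (A + 2) < h) (hhX : (h : ℝ) ≤ X)
    (hAW : AllWindows (A + 2 + 2 * W) (X * L ^ W) h) : LowD W h := by
  have hX0 : 0 < X := by linarith
  have hL0 : 0 < L := by linarith
  have hL1 : 1 ≤ L := by linarith
  obtain ⟨x, hx⟩ : ∃ x, x = X * L ^ W := ⟨_, rfl⟩
  rw [← hx] at hAW
  have hLW1 : 1 ≤ L ^ W := one_le_pow₀ hL1
  have hXx : X ≤ x := by rw [hx]; exact le_mul_of_one_le_right hX0.le hLW1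
  have hx0 : 0 < x := by linarith
  have hu : (0 : ℝ) < X ^ (1 / 100 : ℝ) := by positivity
  -- log x
  have e1 : Real.log x ≤ 101 / 100 * L := by
    have h1 : x ≤ X ^ (101 / 100 : ℝ) := by
      rw [hx]
      calc X * L ^ W ≤ X * X ^ (1 / 100 : ℝ) := by
            apply mul_le_mul_of_nonneg_left _ hX0.le
            exact (pow_le_pow_right₀ hL1 (by omega)).trans hp
        _ = X ^ (101 / 100 : ℝ) := by
            rw [← Real.rpow_one_add' hX0.le (by norm_num)]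
            norm_num
    calc Real.log x ≤ Real.log (X ^ (101 / 100 : ℝ)) := Real.log_le_log hx0 h1
      _ = 101 / 100 * L := by rw [Real.log_rpow hX0, hL]
  have e1' : L ≤ Real.log x := by rw [hL]; exact Real.log_le_log hX0 hXx
  -- log h
  have hYpos : 0 < X / L ^ (A + 2) := by positivity
  have hh0 : (0 : ℝ) < h := lt_trans hYpos hh
  have e2 : 99 / 100 * L ≤ Real.log h := by
    have h1 : X ^ (99 / 100 : ℝ) ≤ h := by
      refine le_trans ?_ hh.le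
      rw [le_div_iff₀ (by positivity)]
      calc X ^ (99 / 100 : ℝ) * L ^ (A + 2) ≤ X ^ (99 / 100 : ℝ) * X ^ (1 / 100 : ℝ) := by
            apply mul_le_mul_of_nonneg_left _ (by positivity)
            exact (pow_le_pow_right₀ hL1 (by omega)).trans hp
        _ = X := by
            rw [← Real.rpow_add hX0]
            norm_num
    calc 99 / 100 * L = Real.log (X ^ (99 / 100 : ℝ)) := by rw [Real.log_rpow hX0, hL]
      _ ≤ Real.log h := Real.log_le_log (by positivity) h1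
  have e2' : Real.log h ≤ L := by rw [hL]; exact Real.log_le_log hh0 hhX
  have hlh0 : 0 < Real.log h := by linarith
  intro y₁ y₂ hy hy2 hw
  have hyr : (y₁ : ℝ) < y₂ := by exact_mod_cast hy
  have w1 : (y₂ : ℝ) ≤ x := by
    refine hy2.trans ?_
    rw [hx]
    exact mul_le_mul hhX (pow_le_pow_left₀ hlh0.le e2' W) (by positivity) hX0.le
  have w2 : x / Real.log x ^ (A + 2 + 2 * W) ≤ (y₂ : ℝ) - y₁ := by
    refine le_trans ?_ hw
    calc x / Real.log x ^ (A + 2 + 2 * W) ≤ x / L ^ (A + 2 + 2 * W) := by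
          apply div_le_div_of_nonneg_left hx0.le (by positivity)
          exact pow_le_pow_left₀ hL0.le e1' _
      _ = (X / L ^ (A + 2)) / L ^ W := by
          rw [hx, show A + 2 + 2 * W = (A + 2) + W + W by ring, pow_add, pow_add L (A + 2) W]
          field_simp
      _ ≤ (h : ℝ) / Real.log h ^ W := by
          apply div_le_div₀ hh0.le hh.le (by positivity)
          exact pow_le_pow_left₀ hlh0.le e2' W
  have h1 := hAW (y₁ : ℝ) (y₂ : ℝ) (Nat.cast_nonneg _) w1 w2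
  rw [pairs_eq h _ _ (Nat.cast_nonneg _) (Nat.cast_nonneg _), Nat.floor_natCast, Nat.floor_natCast] at h1
  refine le_trans ?_ h1
  have hs := Pool.Agent.W93.GB.one_le_sing h
  have hD : 0 < sing h * ((y₂ : ℝ) - y₁) := mul_pos (by linarith) (by linarith)
  have hlx0 : 0 < Real.log x := by linarith
  have k1 : Real.log x ^ 2 ≤ 21 / 20 * Real.log h ^ 2 := by
    have k2 : Real.log x ≤ 101 / 99 * Real.log h := by linarith
    calc Real.log x ^ 2 ≤ (101 / 99 * Real.log h) ^ 2 := pow_le_pow_left₀ hlx0.le k2 2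
      _ = 10201 / 9801 * Real.log h ^ 2 := by ring
      _ ≤ 21 / 20 * Real.log h ^ 2 := by
          have : 0 ≤ Real.log h ^ 2 := by positivity
          linarith
  rw [mul_div_assoc', mul_div_assoc', div_le_div_iff₀ (by positivity) (by positivity)]
  have k3 : 0 ≤ sing h * ((y₂ : ℝ) - y₁) * (21 / 20 * Real.log h ^ 2 - Real.log x ^ 2) :=
    mul_nonneg hD.le (by linarith)
  linarith

theorem ebt_low (W : ℕ) : Pool.Agent.N733.AQ.EBT (7 / 10) (fun h => 2 ∣ h → LowD W h) := by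
  refine Pool.Agent.N733.AQ.ebt_of (7 / 10) (LowD W) (fun ρ₀ hρ₀ A T => ?_)
  obtain ⟨ρ, hρd⟩ : ∃ ρ : ℝ, ρ = min ρ₀ (1 / 10) := ⟨_, rfl⟩
  have hρ : 0 < ρ := by rw [hρd]; exact lt_min hρ₀ (by norm_num)
  have hρ1 : ρ ≤ 1 / 10 := by rw [hρd]; exact min_le_right _ _
  have hρρ : ρ ≤ ρ₀ := by rw [hρd]; exact min_le_left _ _
  obtain ⟨c, hc⟩ := pairs_few ρ hρ (A + 2 + 2 * W) T
  obtain ⟨x₀, hx₀⟩ := hc 0
  obtain ⟨x1, hx1⟩ := eventually_atTop.1 (Pool.Agent.R460.GS.real_log (A + 2 + W) (s := 1 / 100) (by norm_num) 4)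
  refine ⟨max x₀ (max x1 1), fun X hX q hq hqX₀ a ha => ?_⟩
  have hXx₀ : x₀ ≤ X := le_trans (le_max_left _ _) hX
  obtain ⟨hL4, hLp⟩ := hx1 X (le_trans (le_trans (le_max_left _ _) (le_max_right _ _)) hX)
  have hX1 : 1 ≤ X := le_trans (le_trans (le_max_right _ _) (le_max_right _ _)) hX
  have hX0 : 0 < X := by linarith
  obtain ⟨L, hL⟩ : ∃ L, L = Real.log X := ⟨_, rfl⟩
  rw [← hL] at hL4 hLp ha ⊢
  have hL0 : 0 < L := by linarith
  have hL1 : 1 ≤ L := by linarith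
  obtain ⟨x, hx⟩ : ∃ x, x = X * L ^ W := ⟨_, rfl⟩
  have hLW1 : 1 ≤ L ^ W := one_le_pow₀ hL1
  have hXx : X ≤ x := by rw [hx]; exact le_mul_of_one_le_right hX0.le hLW1
  have hx0 : 0 < x := by linarith
  have hLx : L ≤ Real.log x := by rw [hL]; exact Real.log_le_log hX0 hXx
  have hq0 : (0 : ℝ) < q := by exact_mod_cast hq
  have hqX : (q : ℝ) ≤ X ^ (7 / 10 - ρ) := hqX₀.trans (Real.rpow_le_rpow_of_exponent_le hX1 (by linarith))
  obtain ⟨D, -, -, hD⟩ := hx₀ x (hXx₀.trans hXx)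
  obtain ⟨hEf, hEc⟩ := hD q hq (hqX.trans (Real.rpow_le_rpow hX0.le hXx (by linarith))) a
    (Or.inl (ha.trans (pow_le_pow_left₀ hL0.le hLx T)))
  obtain ⟨Y, hY⟩ : ∃ Y : ℝ, Y = X / L ^ (A + 2) := ⟨_, rfl⟩
  have hYpos : 0 < Y := by rw [hY]; positivity
  have hfin : ({n : ℕ | 0 < n ∧ (n : ℝ) ≤ X ∧ 2 ∣ n ∧ (n : ℤ) ≡ a [ZMOD q] ∧ ¬ LowD W n}).Finite := by
    apply (Finset.finite_toSet (Icc 1 ⌊X⌋₊)).subset
    rintro n ⟨h1, h2, -⟩
    rw [mem_coe, mem_Icc]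
    exact ⟨h1, Nat.le_floor h2⟩
  refine ⟨hfin, ?_⟩
  obtain ⟨a', ha'⟩ : ∃ a' : ℕ, a' = (a % q).toNat := ⟨_, rfl⟩
  have hqz : (q : ℤ) ≠ 0 := by exact_mod_cast (by omega : q ≠ 0)
  have ha'z : (a' : ℤ) = a % q := by rw [ha']; exact Int.toNat_of_nonneg (Int.emod_nonneg _ hqz)
  obtain ⟨H₀, hH₀⟩ : ∃ H₀ : Finset ℕ, H₀ = (Icc 1 ⌊X⌋₊).filter (fun h : ℕ => (h : ℤ) ≡ a [ZMOD q] ∧ (h : ℝ) ≤ Y) :=
    ⟨_, rfl⟩
  have hcH₀ : (H₀.card : ℝ) ≤ Y / q + 1 := by
    apply Pool.Agent.Y883.T4.class_le 0 q a' hq H₀ Y hYpos.le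
    intro h hh
    rw [hH₀, mem_filter] at hh
    refine ⟨?_, hh.2.2⟩
    have h1 := hh.2.1
    have e2 : ((h % q : ℕ) : ℤ) = ((a' % q : ℕ) : ℤ) := by
      rw [Int.natCast_mod, Int.natCast_mod, ha'z, Int.emod_emod_of_dvd _ (dvd_refl _)]
      exact h1
    exact_mod_cast e2
  have hsub : {n : ℕ | 0 < n ∧ (n : ℝ) ≤ X ∧ 2 ∣ n ∧ (n : ℤ) ≡ a [ZMOD q] ∧ ¬ LowD W n} ⊆
      ((H₀ : Finset ℕ) : Set ℕ) ∪ exceptional (A + 2 + 2 * W) x q a := by
    rintro n ⟨h1, h2, h3, h4, h5⟩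
    by_cases h6 : (n : ℝ) ≤ Y
    · left
      rw [mem_coe, hH₀, mem_filter, mem_Icc]
      exact ⟨⟨h1, Nat.le_floor h2⟩, h4, h6⟩
    · right
      push Not at h6
      refine ⟨h1, h2.trans hXx, h3, h4, fun h7 => h5 ?_⟩
      exact low_of hX1 hL hL4 hLp (by rw [← hY]; exact h6) h2 (by rw [← hx]; exact h7)
  have hcard : (({n : ℕ | 0 < n ∧ (n : ℝ) ≤ X ∧ 2 ∣ n ∧ (n : ℤ) ≡ a [ZMOD q] ∧ ¬ LowD W n}).ncard : ℝ) ≤
      (Y / q + 1) + x / (q * Real.log x ^ (A + 2 + 2 * W)) := by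
    have h1 := Set.ncard_le_ncard hsub ((Finset.finite_toSet H₀).union hEf)
    have h2 := Set.ncard_union_le ((H₀ : Finset ℕ) : Set ℕ) (exceptional (A + 2 + 2 * W) x q a)
    rw [Set.ncard_coe_finset] at h2
    have h3 : (({n : ℕ | 0 < n ∧ (n : ℝ) ≤ X ∧ 2 ∣ n ∧ (n : ℤ) ≡ a [ZMOD q] ∧ ¬ LowD W n}).ncard : ℝ) ≤
        (H₀.card : ℝ) + ((exceptional (A + 2 + 2 * W) x q a).ncard : ℝ) := by
      exact_mod_cast h1.trans h2
    linarith
  refine hcard.trans ?_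
  have g0 : X / (q * L ^ (A + 2)) ≤ X / (q * L ^ A) / 16 := by
    rw [div_div, div_le_div_iff_of_pos_left hX0 (by positivity) (by positivity), pow_add L A 2]
    have h1 : 16 ≤ L ^ 2 := by nlinarith
    calc q * L ^ A * 16 ≤ q * L ^ A * L ^ 2 := mul_le_mul_of_nonneg_left h1 (by positivity)
      _ = q * (L ^ A * L ^ 2) := by ring
  have g1 : Y / q = X / (q * L ^ (A + 2)) := by
    rw [hY, div_div]
    congr 1
    ring
  have g3 : x / (q * Real.log x ^ (A + 2 + 2 * W)) ≤ X / (q * L ^ (A + 2)) := by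
    calc x / (q * Real.log x ^ (A + 2 + 2 * W)) ≤ x / (q * L ^ (A + 2 + 2 * W)) := by
          apply div_le_div_of_nonneg_left hx0.le (by positivity)
          exact mul_le_mul_of_nonneg_left (pow_le_pow_left₀ hL0.le hLx _) hq0.le
      _ ≤ x / (q * L ^ (A + 2 + W)) := by
          apply div_le_div_of_nonneg_left hx0.le (by positivity)
          exact mul_le_mul_of_nonneg_left (pow_le_pow_right₀ hL1 (by omega)) hq0.le
      _ = X / (q * L ^ (A + 2)) := by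
          rw [hx, pow_add L (A + 2) W]
          field_simp
  have g2 : 1 ≤ X / (q * L ^ A) / 4 := by
    rw [div_div, le_div_iff₀ (by positivity), one_mul]
    have h1 : L ^ A * 4 ≤ X ^ (1 / 100 : ℝ) := by
      calc L ^ A * 4 ≤ L ^ A * L := mul_le_mul_of_nonneg_left (by linarith) (by positivity)
        _ = L ^ (A + 1) := by ring
        _ ≤ L ^ (A + 2 + W) := pow_le_pow_right₀ hL1 (by omega)
        _ ≤ _ := hLp
    calc (q : ℝ) * L ^ A * 4 = q * (L ^ A * 4) := by ring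
      _ ≤ X ^ (7 / 10 - ρ) * X ^ (1 / 100 : ℝ) := mul_le_mul hqX h1 (by positivity) (by positivity)
      _ = X ^ (7 / 10 - ρ + 1 / 100) := by rw [Real.rpow_add hX0]
      _ ≤ X ^ (1 : ℝ) := Real.rpow_le_rpow_of_exponent_le hX1 (by linarith)
      _ = X := Real.rpow_one X
  have g4 : 0 ≤ X / (q * L ^ A) := by positivity
  linarith

end Pool.Agent.U365.PD
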