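import Pool.Agent.N733.TD.E
import Pool.Agent.N733.TD.D
import Pool.Agent.N733.AQ.A

set_option autoImplicit false

/-! Differences in the classes `a mod q`, `q ≤ X ^ (1 / 2 - ρ)`, `gcd (a, q)` at most a power of the logarithm: the number of
the exceptions to the asymptotic formula in all windows up to `h (log h) ^ W`. The proof follows `N733/TD/D` (where `a` is
fixed and `q ≤ X ^ (1 / 3)`). -/

namespace Pool.Agent.U365.PD

open Finset Classical Filter Topology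
open Pool.Agent.Y883.GJ (PS PairGood badp)
open Pool.Agent.H560R3.GB (sing)
open Pool.Agent.N733.TD (LG DF sing_le_log grid)

theorem ebt_LG (B W : ℕ) : Pool.Agent.N733.AQ.EBT (1 / 2) (fun h => 2 ∣ h → LG B W h) := by
  intro ρ₀ hρ₀ A T
  obtain ⟨ρ, hρd⟩ : ∃ ρ : ℝ, ρ = min ρ₀ (1 / 10) := ⟨_, rfl⟩
  have hρ : 0 < ρ := by rw [hρd]; exact lt_min hρ₀ (by norm_num)
  have hρ1 : ρ ≤ 1 / 10 := by rw [hρd]; exact min_le_right _ _
  have hρρ : ρ ≤ ρ₀ := by rw [hρd]; exact min_le_left _ _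
  obtain ⟨G, hG⟩ : ∃ G, G = A + B + 3 := ⟨_, rfl⟩
  obtain ⟨A₁, hA₁⟩ : ∃ A₁, A₁ = A + B + 2 * W + G + 5 := ⟨_, rfl⟩
  obtain ⟨N₁, hp⟩ := Pool.Agent.Y883.GJ.pairs_every Pool.Agent.Y883.GJ.coreC_all Pool.Agent.Y883.GJ.model_all
    (ρ / 2) (by linarith) A₁ (T + 1)
  obtain ⟨x1, hx1⟩ := eventually_atTop.1 (Pool.Agent.R460.GS.real_log (A + G + 3) (s := ρ / 4) (by linarith)
    (2 ^ (T + 1) + 1024 * 2 ^ A₁ + 12 + N₁))
  refine ⟨max x1 1, fun X hX q hq hqX₀ a ha V hV => ?_⟩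
  obtain ⟨hLb, hLp⟩ := hx1 X (le_trans (le_max_left _ _) hX)
  have hX1 : 1 ≤ X := le_trans (le_max_right _ _) hX
  have hX0 : (0 : ℝ) < X := by linarith
  obtain ⟨L, hL⟩ : ∃ L, L = Real.log X := ⟨_, rfl⟩
  rw [← hL] at hLb hLp ha ⊢
  have hpw : (1 : ℝ) ≤ 2 ^ A₁ := one_le_pow₀ (by norm_num)
  have hpT : (1 : ℝ) ≤ 2 ^ (T + 1) := one_le_pow₀ (by norm_num)
  have hN₁0 : (0 : ℝ) ≤ N₁ := Nat.cast_nonneg _
  have hL12 : 12 ≤ L := by linarith
  have hLA : 1024 * 2 ^ A₁ ≤ L := by linarith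
  have hLT : 2 ^ (T + 1) ≤ L := by linarith
  have hLN : (N₁ : ℝ) ≤ L := by linarith
  have hL0 : 0 < L := by linarith
  have hL1 : 1 ≤ L := by linarith
  have hq0 : (0 : ℝ) < q := by exact_mod_cast hq
  have hq1 : (1 : ℝ) ≤ q := by exact_mod_cast hq
  have hqX : (q : ℝ) ≤ X ^ (1 / 2 - ρ) := hqX₀.trans (Real.rpow_le_rpow_of_exponent_le hX1 (by linarith))
  -- powers of X
  obtain ⟨u, hu⟩ : ∃ u : ℝ, u = X ^ (ρ / 4) := ⟨_, rfl⟩
  rw [← hu] at hLp
  have hu0 : 0 < u := by rw [hu]; positivity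
  have hu1 : 1 ≤ u := le_trans (one_le_pow₀ hL1) hLp
  obtain ⟨Z, hZ⟩ : ∃ Z : ℝ, Z = X / u := ⟨_, rfl⟩
  have hZp : Z = X ^ (1 - ρ / 4) := by rw [hZ, hu, Real.rpow_sub hX0, Real.rpow_one]
  have hZ0 : 0 < Z := by rw [hZ]; positivity
  have hLu : L ≤ u := by
    calc L = L ^ 1 := (pow_one L).symm
      _ ≤ L ^ (A + G + 3) := pow_le_pow_right₀ hL1 (by omega)
      _ ≤ u := hLp
  have huZ : u ≤ Z := by
    rw [hZp, hu]
    exact Real.rpow_le_rpow_of_exponent_le hX1 (by linarith)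
  -- the grid
  obtain ⟨Δ, hΔ⟩ : ∃ Δ : ℕ, Δ = ⌊X / L ^ G⌋₊ := ⟨_, rfl⟩
  have hΔle : (Δ : ℝ) ≤ X / L ^ G := by rw [hΔ]; exact Nat.floor_le (by positivity)
  have hLG : L ^ G ≤ u := le_trans (pow_le_pow_right₀ hL1 (by omega)) hLp
  have hXG : Z ≤ X / L ^ G := by
    rw [hZ]
    exact div_le_div_of_nonneg_left hX0.le (by positivity) hLG
  have hZ2 : 2 ≤ Z := by linarith
  have hΔge : X / L ^ G / 2 ≤ Δ := by
    have := Nat.lt_floor_add_one (X / L ^ G)
    rw [← hΔ] at this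
    linarith
  have hΔ1 : 1 ≤ Δ := by
    have : (1 : ℝ) ≤ Δ := by linarith
    exact_mod_cast this
  have hΔ0 : (0 : ℝ) < Δ := by exact_mod_cast hΔ1
  obtain ⟨Jm, hJm⟩ : ∃ Jm : ℕ, Jm = ⌈4 * L ^ (W + G)⌉₊ := ⟨_, rfl⟩
  have hJm1 : 4 * L ^ (W + G) ≤ Jm := by rw [hJm]; exact Nat.le_ceil _
  have hJm2 : (Jm : ℝ) ≤ 4 * L ^ (W + G) + 1 := by rw [hJm]; exact (Nat.ceil_lt_add_one (by positivity)).le
  have hWG1 : 1 ≤ L ^ (W + G) := one_le_pow₀ hL1
  have hJm3 : (Jm : ℝ) + 2 ≤ 8 * L ^ (W + G) := by linarith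
  -- Y
  obtain ⟨Y, hY⟩ : ∃ Y : ℝ, Y = X / L ^ (A + 1) := ⟨_, rfl⟩
  have hYpos : 0 < Y := by rw [hY]; positivity
  -- sizes of the grid points
  have hup : ∀ j : ℕ, j ≤ Jm + 1 → ((j * Δ : ℕ) : ℝ) ≤ 8 * X * L ^ W := by
    intro j hj
    have h1 : (j : ℝ) ≤ 8 * L ^ (W + G) := by
      have : (j : ℝ) ≤ Jm + 1 := by exact_mod_cast hj
      linarith
    push_cast
    calc (j : ℝ) * Δ ≤ (8 * L ^ (W + G)) * (X / L ^ G) := mul_le_mul h1 hΔle hΔ0.le (by positivity)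
      _ = 8 * X * L ^ W := by
        rw [pow_add]
        field_simp
  have hlow : ∀ n : ℕ, Z ≤ n → L / 2 ≤ Real.log n ∧ N₁ ≤ n ∧ (q : ℝ) ≤ (n : ℝ) ^ ((1 : ℝ) / 2 - ρ / 2) := by
    intro n hn
    have hn0 : (0 : ℝ) < n := by linarith
    refine ⟨?_, ?_, ?_⟩
    · have h2 : (1 - ρ / 4) * L ≤ Real.log n := by
        rw [hL, ← Real.log_rpow hX0, ← hZp]
        exact Real.log_le_log hZ0 hn
      nlinarith
    · have h3 : (N₁ : ℝ) ≤ n := by linarith
      exact_mod_cast h3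
    · calc (q : ℝ) ≤ X ^ (1 / 2 - ρ) := hqX
        _ ≤ Z ^ ((1 : ℝ) / 2 - ρ / 2) := by
            rw [hZp, ← Real.rpow_mul hX0.le]
            apply Real.rpow_le_rpow_of_exponent_le hX1
            nlinarith
        _ ≤ _ := Real.rpow_le_rpow hZ0.le hn (by linarith)
  -- the set of differences
  obtain ⟨H, hH⟩ : ∃ H : Finset ℕ, H = V.image (fun v : ℕ => ((q : ℤ) * v + a).toNat) := ⟨_, rfl⟩
  have hcard : V.card = H.card := by
    rw [hH]
    symm
    apply card_image_of_injOn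
    intro v hv w hw h
    have e1 := (hV v hv).1
    have e2 := (hV w hw).1
    simp only at h
    have e3 : (q : ℤ) * v + a = (q : ℤ) * w + a := by omega
    have e4 : (q : ℤ) * v = (q : ℤ) * w := by linarith
    have e5 : (v : ℤ) = w := mul_left_cancel₀ (by exact_mod_cast (by omega : q ≠ 0)) e4
    exact_mod_cast e5
  have hHm : ∀ h ∈ H, 1 ≤ h ∧ (h : ℝ) ≤ X ∧ (h : ℤ) ≡ a [ZMOD q] ∧ 2 ∣ h ∧ ¬ LG B W h := by
    intro h hh
    rw [hH, mem_image] at hh
    obtain ⟨v, hv, rfl⟩ := hh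
    obtain ⟨e1, e2, e3⟩ := hV v hv
    have e4 : ((((q : ℤ) * v + a).toNat : ℕ) : ℤ) = (q : ℤ) * v + a := Int.toNat_of_nonneg e1.le
    push Not at e3
    refine ⟨by omega, ?_, ?_, e3.1, e3.2⟩
    · have e5 : ((((q : ℤ) * v + a).toNat : ℕ) : ℝ) = (((q : ℤ) * v + a : ℤ) : ℝ) := by
        rw [← Int.cast_natCast, e4]
      rw [e5]
      exact e2
    · rw [e4, Int.modEq_iff_dvd]
      exact ⟨-(v : ℤ), by ring⟩
  obtain ⟨a', ha'⟩ : ∃ a' : ℕ, a' = (a % q).toNat := ⟨_, rfl⟩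
  have hqz : (q : ℤ) ≠ 0 := by exact_mod_cast (by omega : q ≠ 0)
  have ha'z : (a' : ℤ) = a % q := by rw [ha']; exact Int.toNat_of_nonneg (Int.emod_nonneg _ hqz)
  have hgcd : (Nat.gcd a' q : ℝ) ≤ L ^ T := by
    have h1 : Nat.gcd a' q = Int.gcd a q := by
      rw [← Int.gcd_natCast_natCast, ha'z]
      exact Int.gcd_emod _ _
    rw [h1]
    exact ha
  have hgcd' : ∀ n : ℕ, L / 2 ≤ Real.log n → (Nat.gcd a' q : ℝ) ≤ Real.log n ^ (T + 1) := by
    intro n hn
    refine hgcd.trans ?_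
    have e1 : (L / 2) ^ (T + 1) ≤ Real.log n ^ (T + 1) := pow_le_pow_left₀ (by positivity) hn _
    refine le_trans ?_ e1
    rw [div_pow, le_div_iff₀ (by positivity)]
    calc L ^ T * 2 ^ (T + 1) ≤ L ^ T * L := mul_le_mul_of_nonneg_left hLT (by positivity)
      _ = L ^ (T + 1) := by ring
  -- small ones
  obtain ⟨H₀, hH₀⟩ : ∃ H₀ : Finset ℕ, H₀ = H.filter (fun h : ℕ => (h : ℝ) ≤ Y) := ⟨_, rfl⟩
  have hcH₀ : (H₀.card : ℝ) ≤ Y / q + 1 := by
    apply Pool.Agent.Y883.T4.class_le 0 q a' hq H₀ Y hYpos.le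
    intro h hh
    rw [hH₀, mem_filter] at hh
    refine ⟨?_, hh.2⟩
    have h1 := (hHm h hh.1).2.2.1
    have e2 : ((h % q : ℕ) : ℤ) = ((a' % q : ℕ) : ℤ) := by
      rw [Int.natCast_mod, Int.natCast_mod, ha'z, Int.emod_emod_of_dvd _ (dvd_refl _)]
      exact h1
    exact_mod_cast e2
  -- the bad sets
  obtain ⟨F, hF⟩ : ∃ F : Finset ℕ, F = (range (Jm + 2)).filter (fun j => Z ≤ ((j * Δ : ℕ) : ℝ)) := ⟨_, rfl⟩
  have hFb : ∀ j ∈ F, ((badp A₁ (j * Δ) q a').card : ℝ) ≤ 8 * X * L ^ W * (2 ^ A₁ / (q * L ^ A₁)) := by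
    intro j hj
    rw [hF, mem_filter, mem_range] at hj
    obtain ⟨l1, l2, l3⟩ := hlow _ hj.2
    have h1 := hp (j * Δ) l2 q hq l3 a' (hgcd' _ l1)
    refine h1.trans ?_
    have h2 : (L / 2) ^ A₁ ≤ Real.log ((j * Δ : ℕ) : ℝ) ^ A₁ := pow_le_pow_left₀ (by positivity) l1 A₁
    calc ((j * Δ : ℕ) : ℝ) / (q * Real.log ((j * Δ : ℕ) : ℝ) ^ A₁) ≤ (8 * X * L ^ W) / (q * (L / 2) ^ A₁) := by
          apply div_le_div₀ (by positivity) (hup j (by omega)) (by positivity)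
          exact mul_le_mul_of_nonneg_left h2 hq0.le
      _ = 8 * X * L ^ W * (2 ^ A₁ / (q * L ^ A₁)) := by
          rw [div_pow]
          field_simp
  have hcF : (F.card : ℝ) ≤ 8 * L ^ (W + G) := by
    have : F.card ≤ Jm + 2 := by
      rw [hF]
      exact (card_filter_le _ _).trans (by rw [card_range])
    have : (F.card : ℝ) ≤ Jm + 2 := by exact_mod_cast this
    linarith
  have hsub : H ⊆ H₀ ∪ F.biUnion (fun j => badp A₁ (j * Δ) q a') := by
    intro h hh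
    rw [mem_union, mem_biUnion]
    by_contra hc
    push Not at hc
    obtain ⟨hc1', hc2'⟩ := hc
    obtain ⟨m1, m2, m3, m4, m5⟩ := hHm h hh
    have hhY : Y < h := by
      by_contra h'
      push Not at h'
      apply hc1'
      rw [hH₀, mem_filter]
      exact ⟨hh, h'⟩
    apply m5
    intro y hy
    have hhr : (1 : ℝ) ≤ h := by exact_mod_cast m1
    have hlh : Real.log h ≤ L := by rw [hL]; exact Real.log_le_log (by linarith) m2
    have hlh0 : 0 ≤ Real.log h := Real.log_nonneg hhr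
    have hyX : (y : ℝ) + h ≤ 2 * X * L ^ W := by
      have h1 : (h : ℝ) * Real.log h ^ W ≤ X * L ^ W :=
        mul_le_mul m2 (pow_le_pow_left₀ hlh0 hlh W) (by positivity) hX0.le
      have h2 : X ≤ X * L ^ W := le_mul_of_one_le_right hX0.le (one_le_pow₀ hL1)
      linarith
    have hyJ : y + h ≤ Jm * Δ + (Δ - 1) := by
      have h1 : 2 * X * L ^ W ≤ Jm * Δ := by
        calc 2 * X * L ^ W = (4 * L ^ (W + G)) * (X / L ^ G / 2) := by
              rw [pow_add]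
              field_simp
              ring
          _ ≤ Jm * Δ := mul_le_mul hJm1 hΔge (by positivity) (Nat.cast_nonneg _)
      have h2 : ((y + h : ℕ) : ℝ) ≤ ((Jm * Δ : ℕ) : ℝ) := by push_cast; linarith
      have : y + h ≤ Jm * Δ := by exact_mod_cast h2
      omega
    have hYbig : Z + X / L ^ G ≤ Y := by
      have h1 : X / L ^ G ≤ Y / 2 := by
        rw [hY, div_div, div_le_div_iff_of_pos_left hX0 (by positivity) (by positivity)]
        calc L ^ (A + 1) * 2 ≤ L ^ (A + 1) * L := mul_le_mul_of_nonneg_left (by linarith) (by positivity)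
          _ = L ^ (A + 2) := by ring
          _ ≤ L ^ G := pow_le_pow_right₀ hL1 (by omega)
      linarith
    have hbig : ∀ j : ℕ, h < j * Δ + Δ → Z ≤ ((j * Δ : ℕ) : ℝ) := by
      intro j hj
      have : (h : ℝ) < (j : ℝ) * Δ + Δ := by exact_mod_cast hj
      push_cast
      linarith
    have hE1 : ∀ j : ℕ, j ≤ Jm + 1 → h ≤ j * Δ → ((j * Δ : ℕ) : ℝ) / Real.log ((j * Δ : ℕ) : ℝ) ^ A₁ ≤
        8 * X * L ^ W * (2 ^ A₁ / L ^ A₁) := by
      intro j hj hjh
      obtain ⟨l1, -, -⟩ := hlow _ (hbig j (by omega))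
      have h2 : (L / 2) ^ A₁ ≤ Real.log ((j * Δ : ℕ) : ℝ) ^ A₁ := pow_le_pow_left₀ (by positivity) l1 A₁
      calc ((j * Δ : ℕ) : ℝ) / Real.log ((j * Δ : ℕ) : ℝ) ^ A₁ ≤ (8 * X * L ^ W) / (L / 2) ^ A₁ :=
            div_le_div₀ (by positivity) (hup j hj) (by positivity) h2
        _ = 8 * X * L ^ W * (2 ^ A₁ / L ^ A₁) := by
            rw [div_pow]
            field_simp
    have hgr := grid h q a (8 * X * L ^ W * (2 ^ A₁ / L ^ A₁)) Δ A₁ Jm hΔ1 m4 m1 hq m3 (by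
      intro j hj hjh
      rw [← ha']
      apply hc2' j
      rw [hF, mem_filter, mem_range]
      exact ⟨by omega, hbig j hjh⟩) hE1 y hyJ (by positivity)
    refine hgr.trans ?_
    -- final comparison
    have hh3 : 3 ≤ h := by
      have h1 : (2 : ℝ) < h := by
        have : 0 ≤ X / L ^ G := by positivity
        linarith
      have : 2 < h := by exact_mod_cast h1
      omega
    have hlh1 : 1 ≤ Real.log h := by
      rw [Real.le_log_iff_exp_le (by linarith)]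
      have := Real.exp_one_lt_d9
      have : (3 : ℝ) ≤ h := by exact_mod_cast hh3
      linarith
    have f1 : sing h * Δ ≤ Y / (2 * L ^ B) := by
      have s1 : sing h ≤ 6 * L := (sing_le_log h hh3).trans (by linarith)
      have s2 := Pool.Agent.W93.GB.one_le_sing h
      calc sing h * Δ ≤ (6 * L) * (X / L ^ G) := mul_le_mul s1 hΔle hΔ0.le (by positivity)
        _ ≤ Y / (2 * L ^ B) := by
          rw [hY, hG, mul_div_assoc', div_div, div_le_div_iff₀ (by positivity) (by positivity)]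
          have e : L ^ (A + B + 3) = L ^ (A + 1) * L ^ B * (L * L) := by ring
          rw [e]
          have : 6 * L * X * (L ^ (A + 1) * (2 * L ^ B)) = X * (L ^ (A + 1) * L ^ B) * (L * 12) := by ring
          rw [this]
          have : X * (L ^ (A + 1) * L ^ B * (L * L)) = X * (L ^ (A + 1) * L ^ B) * (L * L) := by ring
          rw [this]
          apply mul_le_mul_of_nonneg_left _ (by positivity)
          exact mul_le_mul_of_nonneg_left hL12 hL0.le
    have f2 : 8 * X * L ^ W * (2 ^ A₁ / L ^ A₁) ≤ Y / (2 * L ^ B) := by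
      rw [hY, div_div, mul_div_assoc', div_le_div_iff₀ (by positivity) (by positivity)]
      have e1 : L ^ (A + 1) * L ^ B * L ^ W * L ≤ L ^ A₁ := by
        rw [← pow_add, ← pow_add, ← pow_succ]
        exact pow_le_pow_right₀ hL1 (by omega)
      calc 8 * X * L ^ W * 2 ^ A₁ * (L ^ (A + 1) * (2 * L ^ B)) = X * ((L ^ (A + 1) * L ^ B * L ^ W) * (16 * 2 ^ A₁)) := by ring
        _ ≤ X * ((L ^ (A + 1) * L ^ B * L ^ W) * L) := by
            apply mul_le_mul_of_nonneg_left _ hX0.le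
            apply mul_le_mul_of_nonneg_left _ (by positivity)
            linarith
        _ ≤ X * L ^ A₁ := mul_le_mul_of_nonneg_left e1 hX0.le
    have f3 : Y / L ^ B ≤ h / Real.log h ^ B := by
      apply div_le_div₀ (by linarith) hhY.le (by positivity)
      exact pow_le_pow_left₀ hlh0 hlh B
    have f4 : Y / (2 * L ^ B) + Y / (2 * L ^ B) = Y / L ^ B := by
      field_simp
      ring
    linarith
  have hfin : (H.card : ℝ) ≤ (Y / q + 1) + (8 * L ^ (W + G)) * (8 * X * L ^ W * (2 ^ A₁ / (q * L ^ A₁))) := by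
    have h1 : (H.card : ℝ) ≤ (H₀.card : ℝ) + ∑ j ∈ F, ((badp A₁ (j * Δ) q a').card : ℝ) := by
      have h2 := (card_le_card hsub).trans ((card_union_le _ _).trans (Nat.add_le_add_left card_biUnion_le _))
      exact_mod_cast h2
    refine h1.trans (add_le_add hcH₀ ?_)
    calc ∑ j ∈ F, ((badp A₁ (j * Δ) q a').card : ℝ) ≤ ∑ j ∈ F, (8 * X * L ^ W * (2 ^ A₁ / (q * L ^ A₁))) :=
          sum_le_sum hFb
      _ = (F.card : ℝ) * (8 * X * L ^ W * (2 ^ A₁ / (q * L ^ A₁))) := by rw [sum_const, nsmul_eq_mul]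
      _ ≤ _ := mul_le_mul_of_nonneg_right hcF (by positivity)
  have hv : (V.card : ℝ) = H.card := by exact_mod_cast hcard
  rw [hv]
  refine hfin.trans ?_
  have g1 : Y / q ≤ X / (q * L ^ A) / 4 := by
    rw [hY, div_div, div_div, div_le_div_iff_of_pos_left hX0 (by positivity) (by positivity)]
    calc q * L ^ A * 4 ≤ q * L ^ A * L := mul_le_mul_of_nonneg_left (by linarith) (by positivity)
      _ = L ^ (A + 1) * q := by ring
  have g2 : 1 ≤ X / (q * L ^ A) / 4 := by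
    rw [div_div, le_div_iff₀ (by positivity), one_mul]
    have h1 : L ^ A * 4 ≤ u := by
      calc L ^ A * 4 ≤ L ^ A * L := mul_le_mul_of_nonneg_left (by linarith) (by positivity)
        _ = L ^ (A + 1) := by ring
        _ ≤ L ^ (A + G + 3) := pow_le_pow_right₀ hL1 (by omega)
        _ ≤ u := hLp
    calc (q : ℝ) * L ^ A * 4 = q * (L ^ A * 4) := by ring
      _ ≤ X ^ (1 / 2 - ρ) * u := mul_le_mul hqX h1 (by positivity) (by positivity)
      _ = X ^ (1 / 2 - ρ + ρ / 4) := by rw [hu, Real.rpow_add hX0]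
      _ ≤ X ^ (1 : ℝ) := Real.rpow_le_rpow_of_exponent_le hX1 (by linarith)
      _ = X := Real.rpow_one X
  have g3 : (8 * L ^ (W + G)) * (8 * X * L ^ W * (2 ^ A₁ / (q * L ^ A₁))) ≤ X / (q * L ^ A) / 4 := by
    rw [mul_div_assoc', mul_div_assoc', div_div, div_le_div_iff₀ (by positivity) (by positivity)]
    have e1 : L ^ A * L ^ (W + G) * L ^ W * L ≤ L ^ A₁ := by
      rw [← pow_add, ← pow_add, ← pow_succ]
      exact pow_le_pow_right₀ hL1 (by omega)
    calc 8 * L ^ (W + G) * (8 * X * L ^ W * 2 ^ A₁) * (q * L ^ A * 4) =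
          X * q * ((L ^ A * L ^ (W + G) * L ^ W) * (256 * 2 ^ A₁)) := by ring
      _ ≤ X * q * ((L ^ A * L ^ (W + G) * L ^ W) * L) := by
          apply mul_le_mul_of_nonneg_left _ (by positivity)
          apply mul_le_mul_of_nonneg_left _ (by positivity)
          linarith
      _ ≤ X * q * L ^ A₁ := mul_le_mul_of_nonneg_left e1 (by positivity)
      _ = X * (q * L ^ A₁) := by ring
  have g4 : 0 ≤ X / (q * L ^ A) := by positivity
  linarith

/-- a weaker property for all large numbers -/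
theorem ebt_mono {θ : ℝ} (hθ : θ < 1) {Good Good' : ℕ → Prop} (h : ∃ h₀ : ℕ, ∀ n : ℕ, h₀ ≤ n → Good n → Good' n)
    (hE : Pool.Agent.N733.AQ.EBT θ Good) : Pool.Agent.N733.AQ.EBT θ Good' := by
  intro ρ hρ A T
  obtain ⟨h₀, hh⟩ := h
  obtain ⟨X₀, hX₀⟩ := hE ρ hρ (A + 1) T
  obtain ⟨x1, hx1⟩ := eventually_atTop.1 (Pool.Agent.R460.GS.real_log (A + 1) (s := (1 - θ)) (by linarith)
    (2 * ((h₀ : ℝ) + 1) + 2))
  refine ⟨max X₀ (max x1 1), fun X hX q hq hqX a ha V hV => ?_⟩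
  have hX1 : 1 ≤ X := le_trans (le_trans (le_max_right _ _) (le_max_right _ _)) hX
  have hX0 : (0 : ℝ) < X := by linarith
  obtain ⟨hLb, hLp⟩ := hx1 X (le_trans (le_trans (le_max_left _ _) (le_max_right _ _)) hX)
  have hXX : X₀ ≤ X := le_trans (le_max_left _ _) hX
  obtain ⟨V₁, hV₁⟩ : ∃ V₁ : Finset ℕ, V₁ = V.filter (fun v : ℕ => ((q : ℤ) * v + a).toNat < h₀) := ⟨_, rfl⟩
  obtain ⟨V₂, hV₂⟩ : ∃ V₂ : Finset ℕ, V₂ = V.filter (fun v : ℕ => ¬ ((q : ℤ) * v + a).toNat < h₀) := ⟨_, rfl⟩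
  have hc : V.card = V₁.card + V₂.card := by
    rw [hV₁, hV₂]
    exact (card_filter_add_card_filter_not _).symm
  have h1 : V₁.card ≤ h₀ := by
    have : (V₁.image (fun v : ℕ => ((q : ℤ) * v + a).toNat)).card = V₁.card := by
      apply card_image_of_injOn
      intro v hv w hw h
      rw [hV₁, coe_filter] at hv hw
      have e1 := (hV v hv.1).1
      have e2 := (hV w hw.1).1
      simp only at h
      have e3 : (q : ℤ) * v + a = (q : ℤ) * w + a := by omega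
      have e4 : (q : ℤ) * v = (q : ℤ) * w := by linarith
      have e5 : (v : ℤ) = w := mul_left_cancel₀ (by exact_mod_cast (by omega : q ≠ 0)) e4
      exact_mod_cast e5
    rw [← this]
    calc (V₁.image (fun v : ℕ => ((q : ℤ) * v + a).toNat)).card ≤ (range h₀).card := by
          apply card_le_card
          intro n hn
          rw [mem_image] at hn
          obtain ⟨v, hv, rfl⟩ := hn
          rw [hV₁, mem_filter] at hv
          exact mem_range.2 hv.2
      _ = h₀ := card_range _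
  have h2 : (V₂.card : ℝ) ≤ X / (q * Real.log X ^ (A + 1)) := by
    apply hX₀ X hXX q hq hqX a ha
    intro v hv
    rw [hV₂, mem_filter] at hv
    obtain ⟨g1, g2, g3⟩ := hV v hv.1
    exact ⟨g1, g2, fun hg => g3 (hh _ (by omega) hg)⟩
  obtain ⟨L, hL⟩ : ∃ L, L = Real.log X := ⟨_, rfl⟩
  rw [← hL] at hLb hLp h2 ⊢
  have hh0 : (0 : ℝ) ≤ h₀ := Nat.cast_nonneg _
  have hL0 : 0 < L := by linarith
  have hL2 : 2 ≤ L := by linarith
  have hq0 : (0 : ℝ) < q := by exact_mod_cast hq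
  have h3 : X / (q * L ^ (A + 1)) ≤ X / (q * L ^ A) / 2 := by
    rw [div_div, div_le_div_iff_of_pos_left hX0 (by positivity) (by positivity), pow_succ]
    have : 0 < q * L ^ A := by positivity
    nlinarith
  have h4 : (h₀ : ℝ) ≤ X / (q * L ^ A) / 2 := by
    rw [div_div, le_div_iff₀ (by positivity)]
    calc (h₀ : ℝ) * (q * L ^ A * 2) = q * (L ^ A * (2 * h₀)) := by ring
      _ ≤ q * (L ^ A * L) := by
          apply mul_le_mul_of_nonneg_left _ hq0.le
          apply mul_le_mul_of_nonneg_left _ (by positivity)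
          linarith
      _ = q * L ^ (A + 1) := by rw [pow_succ]
      _ ≤ X ^ (θ - ρ) * X ^ (1 - θ) := mul_le_mul hqX hLp (by positivity) (by positivity)
      _ = X ^ (θ - ρ + (1 - θ)) := by rw [Real.rpow_add hX0]
      _ ≤ X ^ (1 : ℝ) := Real.rpow_le_rpow_of_exponent_le hX1 (by linarith)
      _ = X := Real.rpow_one X
  have h5 : (V.card : ℝ) = V₁.card + V₂.card := by exact_mod_cast hc
  have h6 : (V₁.card : ℝ) ≤ h₀ := by exact_mod_cast h1
  rw [h5]
  linarith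

/-- the asymptotic formula in all windows -/
theorem ebt_DF (ε : ℝ) (hε : 0 < ε) (W : ℕ) : Pool.Agent.N733.AQ.EBT (1 / 2) (fun h => 2 ∣ h → DF ε W h) := by
  obtain ⟨h₀, hh⟩ := Pool.Agent.N733.TD.conv ε hε W
  exact ebt_mono (by norm_num) ⟨h₀, fun n hn hg h2 => hh n hn (hg h2)⟩ (ebt_LG (W + 1) W)

end Pool.Agent.U365.PD
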